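import Pool.Agent.MP_ee8c61_ag.N3.Kit
import Pool.Agent.MP_ee8c61_ag.M3L.Loc

/-!
The system of charts cut out by an ample cover of a model: normality of the charts, the
polarization, the functional equation.
-/

set_option autoImplicit false

namespace Pool.Agent.MP_ee8c61_ag.N3.M3L

open Pool.Agent.MP_ee8c61_ag.M3

set_option linter.unusedSectionVars false

variable [Base]

open H59 M3 MvPolynomial
open scoped TensorProduct

export Pool.Agent.MP_ee8c61_ag.M3L (reg normal_of_etale Nm nm_of_etale aw le_aw inv_mem_aw aw_le mem_aw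
  aw_val et_incl et_aw away)

noncomputable section

section Model

variable {N : ℕ}

theorem frac (x : KK N) : ∃ p : Po N, ip N p ≠ 0 ∧ ∃ q : Po N, ip N p * x = ip N q := by
  obtain ⟨q, p, hp, rfl⟩ := IsFractionRing.div_surjective (A := Po N) x
  have h0 : ip N p ≠ 0 := IsFractionRing.to_map_ne_zero_of_mem_nonZeroDivisors hp
  exact ⟨p, h0, q, mul_div_cancel₀ _ h0⟩

theorem ov_of_X {V : Vl N} (hc : ∀ c : ℂ, algebraMap ℂ (KK N) c ∈ V)
    (hx : ∀ l, xx N l ∈ V) : Ov V := ov_iff.2 ⟨hc, hx⟩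

variable {M : Mod N} {f : Po N}

/-- The charts of a model are normal. -/
theorem nm_chart (h : M.OK f) (b : M.ι) : Nm (M.S.A b) :=
  nm_of_etale _ _ (h.et b) fun x => by
    obtain ⟨p, h0, q, e⟩ := frac x
    exact ⟨_, h.pol b p, h0, e ▸ h.pol b q⟩

theorem ov_of_in (h : M.OK f) {b : M.ι} {V : Vl N} (hV : M.In b V) : Ov V :=
  fun p => hV _ (h.pol b p)

theorem f_ne (h : M.OK f) : ip N f ≠ 0 := by
  obtain ⟨b, -⟩ := h.cov ⊤ fun _ => trivial
  obtain ⟨U, -, e⟩ := h.ord b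
  rw [e]
  exact mul_ne_zero U.ne_zero (Units.ne_zero _)

variable {w : M.J → ℤ} {κ : Type} {b : κ → M.ι} {t ρ : κ → KK N}

/-- The system of charts of an ample cover. -/
def LS (hA : M.AC w b t ρ) : Sys ℂ (KK N) κ M.J N := away M.S b t hA.mem hA.ne

theorem LS_A (hA : M.AC w b t ρ) (i : κ) : (LS hA).A i = aw (M.S.A (b i)) (t i) := rfl

theorem LS_mon (hA : M.AC w b t ρ) (i : κ) (c : M.J → ℤ) : (LS hA).mon i c = M.S.mon (b i) c := rfl

theorem LS_et (h : M.OK f) (hA : M.AC w b t ρ) (i : κ) : ((LS hA).zh i).toRingHom.Etale :=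
  et_aw _ (M.S.z_mem (b i)) (hA.mem i) (hA.ne i) (h.et (b i))

theorem LS_pol (h : M.OK f) (hA : M.AC w b t ρ) (i : κ) (p : Po N) : ip N p ∈ (LS hA).A i :=
  le_aw (h.pol (b i) p)

theorem LS_nm (h : M.OK f) (hA : M.AC w b t ρ) (i : κ) : Nm ((LS hA).A i) :=
  nm_of_etale _ _ (LS_et h hA i) fun x => by
    obtain ⟨p, h0, q, e⟩ := frac x
    exact ⟨_, LS_pol h hA i p, h0, e ▸ LS_pol h hA i q⟩

/-- The valuation rings over the chart `i` are those along which `ρ i` generates. -/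
theorem LS_val (h : M.OK f) (hA : M.AC w b t ρ) (i : κ) (V : Vl N) :
    (∀ g ∈ (LS hA).A i, g ∈ V) ↔ Ov V ∧ M.Gen V w (ρ i) := by
  rw [LS_A, aw_val (hA.mem i) (hA.ne i)]
  exact ⟨fun H => ⟨ov_of_in h H.1, (hA.gen i V (ov_of_in h H.1)).2 H⟩,
    fun H => (hA.gen i V H.1).1 H.2⟩

theorem LS_in (hA : M.AC w b t ρ) {i : κ} {V : Vl N} (hV : ∀ g ∈ (LS hA).A i, g ∈ V) :
    M.In (b i) V := fun g hg => hV g (le_aw hg)

theorem rho_ne (hA : M.AC w b t ρ) (i : κ) : ρ i ≠ 0 :=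
  left_ne_zero_of_mul (((hA.gen i ⊤ fun _ => trivial).2 ⟨fun _ _ => trivial, trivial⟩) (b i)
    fun _ _ => trivial).1

theorem nonempty (hA : M.AC w b t ρ) : Nonempty κ :=
  ⟨(hA.cov ⊤ fun _ => trivial).choose⟩

/-- The sections of the cover as units. -/
def ru (hA : M.AC w b t ρ) (i : κ) : (KK N)ˣ := Units.mk0 (ρ i) (rho_ne hA i)

theorem ru_div (hA : M.AC w b t ρ) (i j : κ) : ((ru hA i / ru hA j : (KK N)ˣ) : KK N) = ρ i / ρ j :=
  Units.val_div_eq_div_val _ _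

theorem div_mem_of_gen {V : Vl N} {c : M.J → ℤ} {g g' : KK N} {a : M.ι} (ha : M.In a V)
    (hg : M.Oc V c g) (hg' : M.Gen V c g') : g / g' ∈ V := by
  have := mul_mem (hg a ha) (hg' a ha).2.2
  rwa [← div_eq_mul_inv, mul_div_mul_right _ _ (Units.ne_zero _)] at this

theorem gen_of_un {V : Vl N} {c : M.J → ℤ} {g g' : KK N} (hg' : M.Gen V c g')
    (h0 : g' ≠ 0) (hu : Un V (g / g')) : M.Gen V c g := fun a ha => by
  have := Un.mul hu (hg' a ha)
  rwa [← mul_assoc, div_mul_cancel₀ _ h0] at this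

theorem LS_Pol (h : M.OK f) (hA : M.AC w b t ρ) {m : ℕ} (x : Fin m → KK N)
    (hx : ∀ l, ∃ p, x l = ip N p) (hX : ∀ l, ∃ l', x l' = xx N l) :
    (LS hA).Pol x w (ru hA) := by
  have mem : ∀ i j, ρ i / ρ j ∈ (LS hA).A j := fun i j => LS_nm h hA j _ fun V hV =>
    div_mem_of_gen (LS_in hA hV) (hA.sec i V ((LS_val h hA j V).1 hV).1) ((LS_val h hA j V).1 hV).2
  refine ⟨fun i l => ?_, fun i j => by rw [ru_div]; exact mem i j, fun i j g hg => ?_,
    fun i => ?_, fun i g hg => H95G.POLA.int_of _ fun V hV => ?_⟩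
  · obtain ⟨p, hp⟩ := hx l
    exact hp ▸ LS_pol h hA i p
  · have h0 : ρ i / ρ j ≠ 0 := div_ne_zero (rho_ne hA i) (rho_ne hA j)
    have hn : Nm (aw ((LS hA).A j) (ρ i / ρ j)) :=
      nm_of_etale _ _ (et_aw _ ((LS hA).z_mem j) (mem i j) h0 (LS_et h hA j)) fun x => by
        obtain ⟨p, h0, q, e⟩ := frac x
        exact ⟨_, le_aw (LS_pol h hA j p), h0, e ▸ le_aw (LS_pol h hA j q)⟩
    simp only [Units.val_pow_eq_pow_val, ru_div]
    refine (mem_aw (mem i j) h0).1 (hn g fun V hV => ?_)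
    obtain ⟨h1, h2⟩ := (aw_val (mem i j) h0 V).1 hV
    obtain ⟨h3, h4⟩ := (LS_val h hA j V).1 h1
    exact (LS_val h hA i V).2 ⟨h3, gen_of_un h4 (rho_ne hA j) ⟨h0, h1 _ (mem i j), h2⟩⟩ g hg
  · have u : ∀ V : Vl N, (∀ g ∈ (LS hA).A i, g ∈ V) → Un V (ρ i * M.mon (b i) w) := fun V hV =>
      ((LS_val h hA i V).1 hV).2 _ (LS_in hA hV)
    rw [Sys.IsU, Units.val_inv_eq_inv_val]
    exact ⟨LS_nm h hA i _ fun V hV => (u V hV).2.1, LS_nm h hA i _ fun V hV => (u V hV).2.2⟩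
  · have hO : Ov V := ov_of_X (fun c => hV _ (Subalgebra.algebraMap_mem _ c)) fun l => by
      obtain ⟨l', e⟩ := hX l
      exact e ▸ hV _ (Algebra.subset_adjoin (Or.inl ⟨l', rfl⟩))
    obtain ⟨j, hj⟩ := hA.cov V hO
    obtain ⟨a, ha⟩ := h.cov V hO
    have h1 : ρ j / ρ i ∈ V := by
      rw [← ru_div hA]
      exact hV _ (Algebra.subset_adjoin (Or.inr ⟨j, rfl⟩))
    refine (LS_val h hA i V).2 ⟨hO, gen_of_un hj (rho_ne hA j) ⟨div_ne_zero (rho_ne hA i)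
      (rho_ne hA j), div_mem_of_gen ha (hA.sec i V hO) hj, by rwa [inv_div]⟩⟩ g hg

end Model

end

end Pool.Agent.MP_ee8c61_ag.N3.M3L
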