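import Pool.Agent.MP_ee8c61_ag.N3L.Dat
import Pool.Agent.MP_ee8c61_ag.N3B1.Loc
import Pool.Agent.MP_ee8c61_ag.N3E.Rows
import Pool.Agent.MP_ee8c61_ag.M3.Top
import Pool.Agent.MP_ee8c61_ag.M3L.RCon
import Pool.Agent.MP_ee8c61_ag.M3L.RChi

/-! From models over the charts of the blow-up to the zeta function of an ideal. -/

set_option autoImplicit false

namespace Pool.Agent.MP_ee8c61_ag.N3

open Pool.Agent.MP_ee8c61_ag.M3 Set
open Pool.Agent.MP_96693b_ag.RS (Loc LocOf)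
open M3L (aw le_aw inv_mem_aw mem_aw aw_val)
open N3Zt (zr con_zero)

noncomputable section

variable {N r : ℕ}

/-- The ring of the chart `j` of the blow-up. -/
def A0 (F : Fin r → M3.Po N) (j : Fin r) : Subalgebra ℂ (KK N) :=
  Algebra.adjoin ℂ (range (Fin.append (x0 N) fun i => M3.ip N (F i) / M3.ip N (F j)))

/-- The base is the normalisation of `A`. -/
def Over (B : Base) (A : Subalgebra ℂ (KK 3)) : Prop :=
  (∀ l, @xx B 3 l ∈ A) ∧ ∀ V, @Ov B 3 V ↔ ∀ g ∈ A, g ∈ V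

def SBase : Prop := ∀ A : Subalgebra ℂ (KK 3), A.FG → (∀ p, M3.ip 3 p ∈ A) → ∃ B, Over B A

def SBSI : Prop := ∀ (r : ℕ) (F : Fin r → M3.Po 3) (b : Polynomial ℂ) (j : Fin r) (u : KK 3)
  (B : Base), H10.IsBS F b → F j ≠ 0 → u ∈ A0 F j → u ≠ 0 → Over B (aw (A0 F j) u) →
  ∃ β Q, BSd (pp 3 (F j)) b β Q

open AlgebraicGeometry in
/-- The theorem. -/
def MainI : Prop := ∀ (r : ℕ) (F : Fin r → MvPolynomial (Fin 3) ℂ) (b : Polynomial ℂ)
  (Y : Scheme.{0}) (π : Y ⟶ H95.Aff 3) (J : Type) [Fintype J] (E : J → Set Y) (a k : J → ℕ)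
  (χ : Set Y → ℤ), H10.IsBS F b → H95.IsLogRes (Ideal.span (range F)) π E a k → H95.IsChi π χ →
  ∀ s : ℂ, (H95.zeta E a k χ).denom.IsRoot s → b.IsRoot s

/-! The rings of the charts -/

section Ring

variable {F : Fin r → M3.Po N} {j : Fin r} {u : KK N}

theorem rat_mem (i : Fin r) : M3.ip N (F i) / M3.ip N (F j) ∈ A0 F j :=
  Algebra.subset_adjoin ⟨Fin.natAdd N i, Fin.append_right _ _ _⟩

theorem pol_mem (p : M3.Po N) : M3.ip N p ∈ A0 F j := by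
  induction p using MvPolynomial.induction_on with
  | C c => exact (M3.ip N).commutes c ▸ Subalgebra.algebraMap_mem _ c
  | add p q hp hq => exact map_add (M3.ip N) p q ▸ add_mem hp hq
  | mul_X p i hp =>
    exact map_mul (M3.ip N) p _ ▸ mul_mem hp
      (Algebra.subset_adjoin ⟨Fin.castAdd r i, Fin.append_left _ _ _⟩)

theorem A0_le {B : Subalgebra ℂ (KK N)} (h1 : ∀ p, M3.ip N p ∈ B)
    (h2 : ∀ i, M3.ip N (F i) / M3.ip N (F j) ∈ B) : A0 F j ≤ B := by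
  refine Algebra.adjoin_le ?_
  rintro _ ⟨i, rfl⟩
  refine Fin.addCases (fun l => ?_) (fun l => ?_) i
  · rw [Fin.append_left]
    exact h1 _
  · rw [Fin.append_right]
    exact h2 _

theorem A0_den (h : F j ≠ 0) {g : KK N} (hg : g ∈ A0 F j) :
    ∃ (n : ℕ) (p : M3.Po N), M3.ip N (F j) ^ n * g = M3.ip N p := by
  have h1 : M3.ip N (F j) ∈ (M3.ip N).range := ⟨_, rfl⟩
  obtain ⟨n, p, e⟩ := (mem_aw h1 (M3B1.ip_ne h)).1 (A0_le (B := aw (M3.ip N).range (M3.ip N (F j)))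
    (fun p => le_aw ⟨p, rfl⟩) (fun i => mul_mem (le_aw (A := (M3.ip N).range) ⟨F i, rfl⟩)
      inv_mem_aw) hg)
  exact ⟨n, p, e.symm⟩

theorem aw_fg : (aw (A0 F j) u).FG :=
  (Subalgebra.fg_def.2 ⟨_, finite_range _, rfl⟩).sup
    (Subalgebra.fg_def.2 ⟨_, finite_singleton _, rfl⟩)

end Ring

theorem Over.gd {B : Base} {F : Fin r → M3.Po 3} {j : Fin r} {u : KK 3}
    (H : Over B (aw (A0 F j) u)) (h : F j ≠ 0) (hu : u ∈ A0 F j) (h0 : u ≠ 0) :
    Gd (pp 3 (F j)) := by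
  have f0 := M3B1.ip_ne h
  obtain ⟨n, p, e⟩ := A0_den h hu
  have p0 : M3.ip 3 p ≠ 0 := e ▸ mul_ne_zero (pow_ne_zero _ f0) h0
  refine ⟨fun k => f0 (congrArg Subtype.val k), F j * p,
    mul_ne_zero h fun k => p0 (by rw [k, map_zero]), fun l => ?_, n + 1,
    ⟨u⁻¹, mem_Rb.2 fun V hV => (H.2 V).1 hV _ inv_mem_aw⟩, Subtype.ext ?_⟩
  · obtain ⟨m, hm⟩ := (mem_aw hu h0).1 (H.1 l)
    obtain ⟨n', p', e'⟩ := A0_den h hm
    refine ⟨m + n', F j ^ m * F j ^ (n * m) * p ^ n' * p', ?_⟩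
    simp only [map_mul, map_pow]
    rw [← e', ← e]
    ring
  · change M3.ip 3 (F j) ^ (n + 1) = u⁻¹ * M3.ip 3 (F j * p)
    rw [map_mul, ← e]
    field_simp
    ring

/-! Restriction to an open set -/

theorem locOf_aw {A : Subalgebra ℂ (KK N)} {t : KK N} (ht : t ∈ A) (h0 : t ≠ 0)
    {P : Loc (KK N)} : LocOf (aw A t) P ↔ LocOf A P ∧ P.ev t ≠ 0 := by
  constructor
  · intro h
    have hA : A ≤ P.O := le_aw.trans h.le
    have h1 : P.ev t ≠ 0 := by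
      have := P.ev_mul _ (hA ht) _ (h.le inv_mem_aw)
      rw [mul_inv_cancel₀ h0, Loc.ev_one] at this
      exact left_ne_zero_of_mul_eq_one this.symm
    have h2 : ∀ e : ℕ, P.ev (t ^ e) ≠ 0 := fun e => by
      induction e with
      | zero => simp [Loc.ev_one]
      | succ e ih =>
        rw [pow_succ, P.ev_mul _ (pow_mem (hA ht) e) _ (hA ht)]
        exact mul_ne_zero ih h1
    refine ⟨⟨hA, fun g hg => ?_⟩, h1⟩
    obtain ⟨p, hp, q, hq, h3, e⟩ := h.frac g hg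
    obtain ⟨a, ha⟩ := (mem_aw ht h0).1 hp
    obtain ⟨b, hb⟩ := (mem_aw ht h0).1 hq
    refine ⟨_, mul_mem (pow_mem ht b) ha, _, mul_mem (pow_mem ht a) hb, ?_, by rw [← e]; ring⟩
    rw [P.ev_mul _ (pow_mem (hA ht) a) _ (hA hb), P.ev_mul _ (pow_mem (hA ht) b) _ (h.le hq)]
    exact mul_ne_zero (h2 a) (mul_ne_zero (h2 b) h3)
  · rintro ⟨h, h1⟩
    refine ⟨M3L.aw_le h.le (P.inv_mem _ (h.le ht) h1), fun g hg => ?_⟩
    obtain ⟨p, hp, q, hq, h3, e⟩ := h.frac g hg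
    exact ⟨p, le_aw hp, q, le_aw hq, h3, e⟩

section Res

variable {M : Mod N} {u : KK N} (hu : ∀ b, u ∈ M.S.A b) (h0 : u ≠ 0)

theorem mon_zero (b : M.ι) : M.mon b 0 = 1 := by simp [Mod.mon_eq]

include hu in
theorem hc0 (b : M.ι) : u * M.mon b 0 ∈ M.S.A b := by
  rw [mon_zero, mul_one]
  exact hu b

theorem res_pts (F : KK N) (P : Loc (KK N)) :
    P ∈ (B1.res M 0 u (hc0 hu) h0 F).pts ↔ P ∈ M.pts ∧ P.ev u ≠ 0 := by
  refine Iff.trans (exists_congr fun b => ?_) exists_and_right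
  change LocOf (aw (M.S.A b) (u * M.mon b 0)) P ↔ _
  rw [mon_zero, mul_one]
  exact locOf_aw (hu b) h0

include hu h0 in
theorem v_zero {P : Loc (KK N)} (hP : P ∈ M.pts) (h : P.ev u ≠ 0) {j : M.J} (hj : M.On P j) :
    (M.v j).v u = -(0 : M.J → ℤ) j := by
  obtain ⟨b, hb⟩ := hP
  have h1 := (hj _ (hb.le (hu b))).resolve_left h0
  have h2 := (hj _ (P.inv_mem _ (hb.le (hu b)) h)).resolve_left (inv_ne_zero h0)
  rw [DV.inv] at h2
  simp only [Pi.zero_apply]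
  omega

theorem zeta_res (F : KK N) (ha : ∀ j, (B1.res M 0 u (hc0 hu) h0 F).a j = M.a j.1) {χ : H36.Chi}
    (hχ : ChiOK χ (KK N)) :
    (B1.res M 0 u (hc0 hu) h0 F).zeta χ = zr M.old χ {P | P.ev u ≠ 0} := by
  classical
  refine Fintype.sum_of_injective (Finset.map (Function.Embedding.subtype _))
    (Finset.map_injective _) _ _ (fun I hI => ?_) fun I => ?_
  · have e : M.old.str I ∩ {P | P.ev u ≠ 0} = ∅ := eq_empty_of_forall_notMem fun P hP =>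
      hI ⟨I.subtype _, Finset.subtype_map_of_mem fun j hj =>
        v_zero hu h0 hP.1.1 hP.2 ((hP.1.2 j).2 hj)⟩
    have z : chiP χ (∅ : Set (Loc (KK N))) = 0 := by
      simpa using hχ.add _ _ N3Zt.con_empty N3Zt.con_empty (disjoint_empty _)
    rw [e, z, Int.cast_zero, zero_mul]
  · have e : (B1.res M 0 u (hc0 hu) h0 F).str I =
        M.old.str (I.map (Function.Embedding.subtype _)) ∩ {P | P.ev u ≠ 0} := by
      ext P
      refine ⟨fun h => ?_, fun h => ⟨(res_pts hu h0 F P).2 ⟨h.1.1, h.2⟩, fun j =>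
        (h.1.2 j.1).trans (Finset.mem_map' _)⟩⟩
      obtain ⟨h1, h2⟩ := (res_pts hu h0 F P).1 h.1
      refine ⟨⟨h1, fun j => ⟨fun hj => ?_, fun hj => ?_⟩⟩, h2⟩
      · exact Finset.mem_map.2 ⟨⟨j, v_zero hu h0 h1 h2 hj⟩, (h.2 _).1 hj, rfl⟩
      · obtain ⟨i, hi, rfl⟩ := Finset.mem_map.1 hj
        exact (h.2 i).2 hi
    rw [e]
    exact congrArg _ ((Finset.prod_congr rfl fun j _ => by rw [ha]; rfl).trans
      (Finset.prod_map I _ _).symm)

end Res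

/-! Inclusion and exclusion -/

theorem zr_mem {M : M3.Mod N} {χ : H36.Chi} (hχ : ChiOK χ (KK N)) (hc : ∀ I, ConP (M.str I))
    {A : Subalgebra ℂ (KK N)} (hA : ∀ b, A ≤ M.S.A b) {S : Subring (RatFunc ℂ)}
    (hS : ∀ u ∈ A, u ≠ 0 → zr M χ {P | P.ev u ≠ 0} ∈ S) {κ : Type} (t : κ → KK N)
    (ht : ∀ k, t k ∈ A ∧ t k ≠ 0) (T : Finset κ) :
    ∀ u ∈ A, u ≠ 0 → zr M χ ({P | P.ev u ≠ 0} ∩ {P | ∀ k ∈ T, P.ev (t k) = 0}) ∈ S := by
  classical
  have hC := M3L.scon (KK N)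
  have rg : ∀ I, ∀ P ∈ M.str I, A ≤ P.O := fun I P ⟨⟨b, hb⟩, _⟩ => (hA b).trans hb.le
  have cn : ∀ I (T : Finset κ), ∀ u ∈ A,
      ConP (M.str I ∩ ({P | P.ev u ≠ 0} ∩ {P | ∀ k ∈ T, P.ev (t k) = 0})) := fun I T u hu => by
    have h1 := con_zero hC (hc I) (fun k : T => t k) fun P hP k => rg I P hP (ht k).1
    have h2 := hC.diff _ _ h1 (con_zero hC (hc I) (fun _ : Unit => u) fun P hP _ => rg I P hP hu)
    refine Eq.subst (motive := ConP) (Set.ext fun P => ?_) h2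
    simp only [mem_sdiff, mem_inter_iff, mem_ofPred_eq, Subtype.forall, forall_const]
    tauto
  induction T using Finset.induction_on with
  | empty => simpa using hS
  | insert k T _ ih =>
    intro u hu h0
    have e : zr M χ ({P | P.ev u ≠ 0} ∩ {P | ∀ k ∈ T, P.ev (t k) = 0}) =
        zr M χ ({P | P.ev u ≠ 0} ∩ {P | ∀ i ∈ insert k T, P.ev (t i) = 0}) +
        zr M χ ({P | P.ev (u * t k) ≠ 0} ∩ {P | ∀ k ∈ T, P.ev (t k) = 0}) := by
      rw [zr, zr, zr, ← Finset.sum_add_distrib]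
      refine Finset.sum_congr rfl fun I _ => ?_
      have ev : ∀ P ∈ M.str I, P.ev (u * t k) = P.ev u * P.ev (t k) := fun P hP =>
        P.ev_mul _ (rg I P hP hu) _ (rg I P hP (ht k).1)
      rw [← add_mul, ← Int.cast_add, ← hχ.add _ _ (cn I _ u hu) (cn I _ _ (mul_mem hu (ht k).1))
        (disjoint_left.2 fun P h1 h2 => h2.2.1 (by
          rw [ev P h1.1, h1.2.2 k (Finset.mem_insert_self _ _), mul_zero]))]
      congr 3
      ext P
      refine ⟨fun h => ?_, fun h => h.elim (fun h => ⟨h.1, h.2.1, fun i hi =>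
        h.2.2 i (Finset.mem_insert_of_mem hi)⟩) fun h => ⟨h.1, fun z => h.2.1 (by
          rw [ev P h.1, z, zero_mul]), h.2.2⟩⟩
      by_cases hk : P.ev (t k) = 0
      · exact Or.inl ⟨h.1, h.2.1, fun i hi => (Finset.mem_insert.1 hi).elim (fun e => e ▸ hk)
          (h.2.2 i)⟩
      · exact Or.inr ⟨h.1, fun z => mul_ne_zero h.2.1 hk ((ev P h.1).symm.trans z), h.2.2⟩
    rw [← sub_eq_iff_eq_add.2 e]
    exact sub_mem (ih u hu h0) (ih _ (mul_mem hu (ht k).1) (mul_ne_zero h0 (ht k).2))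

theorem mainI_of (hB : SBase) (hS : SBSI) (hM : ∀ B : Base, @MainB B) : MainI := by
  classical
  intro r F b Y π J _ E a k χ hb hY hχ s hs
  by_contra hn
  have hX := M3L.ofChi M3L.scon
  obtain ⟨χ₀, h0, hz⟩ := N3Zt.sdat M3L.scon hX F Y π J E a k χ hY hχ
  have ex : ∀ (j : Fin r) (u : KK 3), ∃ B, Over B (aw (A0 F j) u) := fun j u =>
    hB _ aw_fg fun p => le_aw (pol_mem p)
  choose B hO using ex
  have ov : ∀ j V, @Ov (B j 1) 3 V ↔ ∀ g ∈ A0 F j, g ∈ V := fun j V => by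
    rw [(hO j 1).2, aw_val (one_mem _) one_ne_zero, inv_one, and_iff_left (one_mem V)]
  have eW : ∀ i : {j // F j ≠ 0}, ∃ W : Mod 3, @Mod.OK (B i 1) 3 W (@pp (B i 1) 3 (F i)) :=
    fun i => (@B1.sb1 (B i 1) 3 _ {1} ((hO i 1).gd i.2 (one_mem _) one_ne_zero)
      ⟨0, by simp⟩).imp fun _ h => h.1
  choose W hW using eW
  have hA : ∀ (i : {j // F j ≠ 0}) b, A0 F i ≤ (W i).S.A b := fun i b g hg =>
    @Mod.OK.pol (B i 1) 3 _ _ (hW i) b ⟨g, (@mem_Rb (B i 1) 3 g).2 fun V hV => (ov i V).1 hV g hg⟩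
  have Fm : N3Zt.Fam F Subtype.val fun i => (W i).old :=
    ⟨fun i => @M3L.ok0 3 _ (B i 1) _ (hW i), fun i => @Mod.OK.pos (B i 1) 3 _ _ (hW i),
      fun i => @Mod.OK.ord (B i 1) 3 _ _ (hW i), fun i b j => hA i b (rat_mem j),
      fun i V h1 h2 => @Mod.OK.cov (B i 1) 3 _ _ (hW i) V ((ov i V).2 (A0_le
        (B := ⟨V.toSubring.toSubsemiring, fun c => (M3.ip 3).commutes c ▸ h1 _⟩) h1 h2)),
      fun j hj => ⟨⟨j, hj⟩, rfl⟩, fun i => i.2⟩
  rw [hz _ Subtype.val _ (fun i => (i.1 : ℕ)) Fm (Fin.val_injective.comp Subtype.val_injective)]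
    at hs
  refine (show _ ∈ regAt s from sum_mem fun i _ => ?_) hs
  have key := zr_mem (hX χ₀ _ h0.1) (N3Zt.con_str (M3L.scon _) (Fm.ok i) (Fm.mo i)) (hA i)
    (S := regAt s) ?_
    (fun k : {k : {j // F j ≠ 0} // (k.1 : ℕ) < i.1} => M3.ip 3 (F k.1.1) / M3.ip 3 (F i.1))
    (fun k => ⟨rat_mem _, div_ne_zero (M3B1.ip_ne k.1.2) (M3B1.ip_ne i.2)⟩) Finset.univ 1
    (one_mem _) one_ne_zero
  · simpa [Loc.ev_one, N3Zt.Zs] using key
  intro u hu u0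
  let _ := B i 1
  have eo := M3E.eout_raw B1.sb1raw
  have Bs := eo.bas 3 _ _ (hW i)
  have Nb := eo.nb 3 _ _ (hW i)
  have hu' : ∀ b, u ∈ (W i).S.A b := fun b => hA i b hu
  have ok := B1.ok_res (B i 1) (B i u) (hc := hc0 hu') (u0 := u0) (f := @pp (B i u) 3 (F i))
    (hW i) Bs Nb rfl ((hO i u).gd i.2 hu u0) fun V => by
      rw [(hO i u).2, aw_val hu u0, ← ov]
      refine and_congr_right fun hV => ⟨fun h b _ => ?_, fun h => ?_⟩
      · rw [mon_zero, mul_one]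
        exact ⟨u0, (ov i V).1 hV u hu, h⟩
      · obtain ⟨b, hb⟩ := (hW i).cov V hV
        have := (h b hb).2.2
        rwa [mon_zero, mul_one] at this
  rw [← zeta_res hu' u0 _ (B1.okr_self (hW i) Bs Nb).2 (hX χ₀ _ h0.1)]
  obtain ⟨β, Q, hbs⟩ := hS r F b i u (B i u) hb i.2 hu u0 (hO i u)
  exact fun h => hn (hM (B i u) _ b β Q _ χ₀ hbs ok h0 s h)

end

end Pool.Agent.MP_ee8c61_ag.N3
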