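import Pool.Agent.MP_ee8c61_ag.N3L.Pol
import Pool.Agent.MP_ee8c61_ag.N3E.Asm
import Pool.Agent.MP_ee8c61_ag.N3.Defs

/-! A divisor that is alive beyond the log canonical divisor gives a root. -/

set_option autoImplicit false

namespace Pool.Agent.MP_ee8c61_ag.N3.M3L

open Pool.Agent.MP_ee8c61_ag.M3

set_option linter.unusedSectionVars false

variable [Base]

open H59 M3 M3E Filter Topology

variable {N : ℕ} {f : Po N} {W M : Mod N}

/-- The pull-back of the log canonical divisor is at most the log canonical divisor. -/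
theorem pb_nu_le (E : EOut) (D : Dom W M) (hW : W.OK f) (hM : M.OK f) (o : M.J) :
    D.pb M.nu ≤ W.nu := fun i => by
  by_cases hi : i = D.e o
  · rw [hi, (E.dc N f W M D hW hM).pb_e]
    simp [Mod.nu, (E.jd N f W M D hW hM).2]
  have e : ∀ δ : ℚ, D.bd o ((1 - δ) • M.dd o) i =
      D.pb M.nu i - W.k i - δ * D.pb (M.dd o) i := fun δ => by
    have : M.q (M.kk + M.e o) + (1 - δ) • M.dd o = M.nu - δ • M.dd o := funext fun j => by
      by_cases hj : j = o <;> simp [Mod.kk, Mod.e_apply, Mod.dd, Mod.nu, hj]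
      ring
    rw [Dom.bd, this, D.pb_sub, D.pb_smul]
    simp only [Pi.sub_apply, Pi.smul_apply, smul_eq_mul, Mod.q_apply, Pi.add_apply, Mod.kk,
      Mod.e_apply, if_neg hi, add_zero, Int.cast_natCast]
    ring
  have h0 : 0 ≤ D.pb (M.dd o) i := Finset.sum_nonneg fun j _ =>
    mul_nonneg (Nat.cast_nonneg _) (by unfold Mod.dd; split_ifs <;> norm_num)
  refine le_of_forall_pos_lt_add fun ε hε => ?_
  have hp : 0 < ε / (D.pb (M.dd o) i + 1) := by positivity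
  have := (E.plt N f W M D hW hM o ((1 - ε / (D.pb (M.dd o) i + 1)) • M.dd o) (by simp [Mod.dd])
    fun j => by
      by_cases hj : j = o <;> simp [Mod.dd, hj, hp]).2.2 i
  have h1 : ε / (D.pb (M.dd o) i + 1) * D.pb (M.dd o) i ≤ ε := by
    rw [div_mul_eq_mul_div, div_le_iff₀ (by positivity)]
    nlinarith
  rw [e] at this
  unfold Mod.nu at this ⊢
  linarith

theorem sr1 (E : EOut) : SR1 := by
  classical
  intro N f la b β Q M o h s m c _ hb hM hex hh hs hm hc g hg hgo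
  obtain ⟨u, hu⟩ := hb.pol
  have rg : ∀ y ∈ (ip N).range, y ∈ Rb N := fun y ⟨p, hp⟩ => hp ▸ p.2
  have B := E.bas N f M hM
  obtain ⟨r, hr⟩ := B.f_pow c
  have hT : ∀ x ∈ ({g, ip N f ^ r} : Finset (KK N)), x ∈ M.H c := by
    simpa using ⟨hg, (hr r le_rfl).1⟩
  obtain ⟨W, hW, ⟨D⟩, H⟩ := E.b1 N f M hM Unit (fun _ => {g, ip N f ^ r})
    (fun _ => ⟨c, hT⟩) fun _ => ⟨r, by simp⟩
  obtain ⟨c', hc'⟩ := H ()
  have BW := E.bas N f W hW
  have DC := E.dc N f W M D hW hM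
  have AW := E.aq N f W hW
  have h1 : ∀ i, c' i ≤ D.pb c i := fun i => by
    obtain ⟨x, hx, h2⟩ := hc'.2 _ (BW.ov_v i)
    have h3 := (BW.gen_v _ _ _).1 h2
    have h4 := ((BW.oc_v _ _ _).1 ((DC.H c).ge (hT x hx) _ (BW.ov_v i))).resolve_left h3.1
    omega
  have h2 : c' (D.e o) = c o := by
    have h3 := (BW.oc_v _ _ _).1 (hc'.1 g (by simp) _ (BW.ov_v (D.e o)))
    have h4 := h1 (D.e o)
    rw [DC.pb_e] at h4
    rw [D.v] at h3
    have h5 := not_or.1 hgo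
    have h6 := h3.resolve_left h5.1
    omega
  obtain ⟨Ξ, h3, h4, ε, h5, h6⟩ :=
    E.a4 N f W M D hW hM _ ((E.aq N f M hM).smul h (-s) (neg_pos.2 hs) hh)
  have hm' : (0 : ℚ) < m := Nat.cast_pos.2 hm
  obtain ⟨μ, w, h7, h8, h9⟩ := AW.add _ _ (h6 ε h5 le_rfl)
    (AW.smul' _ (m : ℚ)⁻¹ (by positivity) (AW.of_free c' ⟨_, hc'⟩))
  have e1 : ∀ i, (w i : ℚ) = μ * (-s * D.pb h i - ε * Ξ i + (m : ℚ)⁻¹ * c' i) := fun i => by
    simpa [D.pb_smul, D.pb_neg, mul_add] using congrFun h9 i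
  have e2 : ∀ i, ((D.pb c i : ℤ) : ℚ) = m * (D.pb M.nu i + s * D.pb h i) := fun i => by
    have := congrFun (D.q_pb c) i
    rw [hc, D.pb_nsmul, D.pb_add, D.pb_smul] at this
    simpa [mul_add] using this
  refine root_of_amp hW (y := xx N) (fun l => (xp N l).2) (fun V => ov_of_X)
    (fun l e => rg _ (hu l e)) (fun e => rg _ (hb.reg e)) hb.eq h7 h8 (fun i => ?_)
    (o := D.e o) ?_ ?_
  · have a1 : (c' i : ℚ) ≤ m * (D.pb M.nu i + s * D.pb h i) := e2 i ▸ Int.cast_le.2 (h1 i)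
    have a2 : D.pb M.nu i ≤ W.k i + 1 := pb_nu_le E D hW hM o i
    have a3 : 0 ≤ ε * Ξ i := mul_nonneg h5.le (Int.cast_nonneg (h3 i))
    rw [← inv_mul_le_iff₀ hm'] at a1
    have : (w i : ℚ) ≤ μ * (W.k i + 1) :=
      e1 i ▸ mul_le_mul_of_nonneg_left (by linarith) (Nat.cast_nonneg _)
    exact_mod_cast this
  · have a1 := e2 (D.e o)
    have a2 : Ξ (D.e o) = 0 := congrFun h4 o
    rw [DC.pb_e, DC.pb_e] at a1
    have : (w (D.e o) : ℚ) = μ * (W.k (D.e o) + 1) := by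
      rw [e1, h2, a1, a2, (E.jd N f W M D hW hM).2, inv_mul_cancel_left₀ hm'.ne']
      simp [Mod.nu]
    exact_mod_cast this
  · have a1 := congrFun DC.aa (D.e o)
    rw [DC.pb_e] at a1
    have a2 : W.a (D.e o) = M.a o := Nat.cast_injective (R := ℤ) a1.symm
    rw [a2, (E.jd N f W M D hW hM).2]
    exact_mod_cast sub_eq_zero.1 hex

/-- The round-up of a semiample divisor is the round-up of an ample divisor. -/
theorem cw (E : EOut) (hW : W.OK f) {A : W.J → ℚ} (hA : W.SemiQ A) :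
    ∃ (w : W.J → ℤ) (μ : ℕ), 0 < μ ∧ W.Amp w ∧ Sys.cl w μ = W.up A := by
  have AW := E.aq N f W hW
  obtain ⟨w₀, h0⟩ := hW.amp
  obtain ⟨κ, hκ⟩ := Finite.exists_le fun j => max (w₀ j) 0
  have h1 := E.a3 N f W hW _ _ h0 ((E.bas N f W hW).free_aa (-κ))
  have h2 : ∀ j, W.q (w₀ + -κ • W.aa) j ≤ 0 := fun j => by
    have a1 : (1 : ℤ) ≤ W.a j := by exact_mod_cast hW.pos j
    have a2 := max_le_iff.1 (hκ j)
    have : w₀ j + -κ * W.a j ≤ 0 := by nlinarith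
    exact Int.cast_nonpos.2 this
  have h3 : ∀ᶠ δ in 𝓝 (0 : ℚ), ∀ j, (⌈A j⌉ : ℚ) - 1 < δ * W.q (w₀ + -κ • W.aa) j + A j :=
    eventually_all.2 fun j => continuousAt_const.eventually_lt (by fun_prop)
      (by linarith [Int.ceil_lt_add_one (A j)])
  obtain ⟨δ, h4, h5⟩ := ((h3.filter_mono nhdsWithin_le_nhds).and
    (self_mem_nhdsWithin (s := Set.Ioi 0))).exists
  obtain ⟨μ, w, h6, h7, h8⟩ := AW.add _ _ (AW.smul _ δ h5 (AW.of_amp _ h1)) hA
  refine ⟨w, μ, h6, h7, funext fun j => Int.ceil_eq_iff.2 ?_⟩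
  have e : (w j : ℚ) / μ = δ * W.q (w₀ + -κ • W.aa) j + A j := by
    rw [div_eq_iff (Nat.cast_ne_zero.2 h6.ne'), mul_comm]
    simpa [mul_add] using congrFun h8 j
  rw [e]
  exact ⟨h4 j, (add_le_of_nonpos_left (mul_nonpos_of_nonneg_of_nonpos h5.le (h2 j))).trans
    (Int.le_ceil _)⟩

end Pool.Agent.MP_ee8c61_ag.N3.M3L
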