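import Pool.Agent.MP_ee8c61_ag.N3L.Loc
import Pool.Agent.MP_ee8c61_ag.M3B1.Basic

/-! The polarization and the functional equation for any generators of the base. -/

set_option autoImplicit false

namespace Pool.Agent.MP_ee8c61_ag.N3.M3L

open Pool.Agent.MP_ee8c61_ag.M3

set_option linter.unusedSectionVars false

variable [Base]

open H59 hiding pd
open M3 MvPolynomial
open M3B1 (pd)

noncomputable section

variable {N : ℕ} {M : Mod N} {f : Po N} {w : M.J → ℤ} {κ : Type} {b : κ → M.ι} {t ρ : κ → KK N}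
  {m : ℕ} {y : Fin m → KK N}

theorem LS_rb (h : M.OK f) (hA : M.AC w b t ρ) (i : κ) {g : KK N} (hg : g ∈ Rb N) :
    g ∈ (LS hA).A i := LS_pol h hA i ⟨g, hg⟩

theorem LS_Pol' (h : M.OK f) (hA : M.AC w b t ρ) (hy : ∀ i, y i ∈ Rb N)
    (hY : ∀ V : Vl N, (∀ c, algebraMap ℂ (KK N) c ∈ V) → (∀ i, y i ∈ V) → Ov V) :
    (LS hA).Pol y w (ru hA) := by
  have H := LS_Pol h hA (xx N) (fun l => ⟨xp N l, rfl⟩) fun l => ⟨l, rfl⟩
  refine ⟨fun i l => LS_rb h hA i (hy l), H.mem, H.loc, H.ord,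
    fun i g hg => H95G.POLA.int_of _ fun V hV => ?_⟩
  have hO : Ov V := hY V (fun c => hV _ (Subalgebra.algebraMap_mem _ c)) fun l =>
    hV _ (Algebra.subset_adjoin (Or.inl ⟨l, rfl⟩))
  obtain ⟨j, hj⟩ := hA.cov V hO
  obtain ⟨a, ha⟩ := h.cov V hO
  have h1 : ρ j / ρ i ∈ V := by
    rw [← ru_div hA]
    exact hV _ (Algebra.subset_adjoin (Or.inr ⟨j, rfl⟩))
  exact (LS_val h hA i V).2 ⟨hO, gen_of_un hj (rho_ne hA j) ⟨div_ne_zero (rho_ne hA i)
    (rho_ne hA j), div_mem_of_gen ha (hA.sec i V hO) hj, by rwa [inv_div]⟩⟩ g hg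

theorem mon_neg (a : M.ι) (c : M.J → ℤ) : M.S.mon a (fun j => -c j) = (M.S.mon a c)⁻¹ := by
  simp [Sys.mon]

theorem R_eq (h : M.OK f) (l : Fin N) : M.S.R l = pd N l :=
  M3B1.der_ext fun i => by
    rw [M3B1.pd_X, ← M.S.R_r, h.r]
    rfl

variable {B : Polynomial ℂ} {u : ℕ} {β : Fin N → PX m (KK N)} {Q : PX m (KK N)}

theorem LS_mainK (h : M.OK f) (hA : M.AC w b t ρ)
    (h1 : ∀ l e, ip N f ^ u * coeff e (β l) ∈ Rb N) (h2 : ∀ e, coeff e Q ∈ Rb N)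
    (h3 : Polynomial.aeval (X none : PX m (KK N)) B = C (ip N f) * Q +
      ∑ l, (dpol _ (pd N l) (β l) + (∑ i, X (some i) * C (pd N l (y i)) +
        X none * C ((ip N f)⁻¹ * pd N l (ip N f))) * β l)) :
    H95G.MainK (LS hA) y (Units.mk0 _ (f_ne h)) M.a M.k B := by
  have hr : (LS hA).r = x0 N := h.r
  have hR : ∀ l, (LS hA).R l = pd N l := R_eq h
  refine ⟨LS_et h hA, fun c l => hr ▸ le_aw (h.x0_mem _ l), fun c => ?_, fun c => ?_,
    u, β, Q, fun c l e => LS_rb h hA c (h1 l e), fun c e => LS_rb h hA c (h2 e), ?_⟩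
  · obtain ⟨U, hU, e⟩ := h.ord (b c)
    have : Units.mk0 _ (f_ne h) * (LS hA).mon c (fun j => -(M.a j : ℤ)) = U := by
      rw [LS_mon, mon_neg, mul_inv_eq_iff_eq_mul]
      exact Units.ext e
    rw [this]
    exact ⟨le_aw hU.1, le_aw hU.2⟩
  · obtain ⟨U, hU, e⟩ := h.det (b c)
    exact ⟨U, ⟨le_aw hU.1, le_aw hU.2⟩, e⟩
  · rw [h3]
    simp only [Sys.th, hR, Units.val_mk0, Units.val_inv_eq_inv_val]

/-- A divisor on which an ample divisor below the log canonical divisor attains the bound gives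
a root. -/
theorem root_of_amp (h : M.OK f) (hy : ∀ i, y i ∈ Rb N)
    (hY : ∀ V : Vl N, (∀ c, algebraMap ℂ (KK N) c ∈ V) → (∀ i, y i ∈ V) → Ov V)
    (h1 : ∀ l e, ip N f ^ u * coeff e (β l) ∈ Rb N) (h2 : ∀ e, coeff e Q ∈ Rb N)
    (h3 : Polynomial.aeval (X none : PX m (KK N)) B = C (ip N f) * Q +
      ∑ l, (dpol _ (pd N l) (β l) + (∑ i, X (some i) * C (pd N l (y i)) +
        X none * C ((ip N f)⁻¹ * pd N l (ip N f))) * β l))
    {μ : ℕ} (hμ : 0 < μ) (hw : M.Amp w) (hle : ∀ j, w j ≤ μ * (M.k j + 1)) {o : M.J}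
    (ho : w o = μ * (M.k o + 1)) {la : ℂ} (hla : (M.k o + 1 : ℂ) = la * M.a o) :
    B.eval (-la) = 0 := by
  obtain ⟨κ, _, b, t, ρ, hA⟩ := hw
  have := nonempty hA
  obtain ⟨a, ha⟩ := h.ne o
  obtain ⟨g1, g2, -⟩ := h.dv a o ha
  obtain ⟨i, hi⟩ := hA.cov _ (ov_of_in h g1)
  have hV := (LS_val h hA i _).2 ⟨ov_of_in h g1, hi⟩
  have hd := H95G.rowRES H59.smain (KK N) κ M.J N m (LS hA) y _ M.a M.k B w (ru hA) μ {o}
    la i (LS_mainK h hA h1 h2 h3) (LS_Pol' h hA hy hY) hμ hle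
    (fun j hj => absurd hj (h.pos j).ne')
    (fun j hj => Finset.mem_singleton.1 hj ▸ ho) (fun j hj => Finset.mem_singleton.1 hj ▸ hla) ?_
  · rw [Finset.card_singleton, pow_one, ← sub_neg_eq_add, ← Polynomial.C_neg,
      Polynomial.dvd_iff_isRoot] at hd
    exact hd
  · rintro ⟨g, k1, k2⟩
    rw [Finset.sum_singleton] at k2
    have e1 : (M.η (b i) o)⁻¹ = g o := (eq_inv_of_mul_eq_one_right k2.symm).symm
    have e2 : ((M.S.η (b i) o / M.S.η a o : (KK N)ˣ) : KK N) ∈ (M.v o).O :=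
      (sup_le (a := M.S.A (b i)) (b := M.S.A a) (c := ⟨(M.v o).O.toSubring.toSubsemiring,
        fun c => g1 _ (Subalgebra.algebraMap_mem _ c)⟩) (LS_in hA hV) g1) (M.S.η_mem _ _ _)
    have e3 := mul_mem e2 (e1 ▸ hV _ (k1 o))
    rw [Units.val_div_eq_div_val, div_mul_eq_mul_div, mul_inv_cancel₀ (Units.ne_zero _),
      one_div] at e3
    rcases e3 with e3 | e3
    · exact inv_ne_zero (Units.ne_zero _) e3
    · rw [DV.inv, g2] at e3
      omega

end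

end Pool.Agent.MP_ee8c61_ag.N3.M3L
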