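import Pool.Agent.MP_ee8c61_ag.N3L.Zt
import Pool.Agent.MP_ee8c61_ag.N3.Defs

/-! Points and divisors of a model over a base. -/

set_option autoImplicit false

namespace Pool.Agent.MP_ee8c61_ag.N3

open Pool.Agent.MP_ee8c61_ag.M3
open Pool.Agent.MP_96693b_ag.RS (Loc LocOf)

variable {N : ℕ}

/-- The same data as a model over affine space. -/
def Mod.old (M : Mod N) : M3.Mod N := ⟨M.ι, M.J, M.fι, M.fJ, M.dJ, M.S, M.a, M.k, M.v⟩

namespace M3L

variable {M : Mod N}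

theorem eta_mem (b : M.ι) (j : M.J) : M.η b j ∈ M.S.A b := N3Zt.eta_mem (M := M.old) b j

theorem locOf_of_le {a b : M.ι} {P : Loc (KK N)} (hP : LocOf (M.S.A b) P) (h : M.S.A a ≤ P.O) :
    LocOf (M.S.A a) P := N3Zt.locOf_of_le (M := M.old) hP h

variable [Base] {f : Po N}

theorem ok0 (h : M.OK f) : N3Zt.OK0 M.old := ⟨h.r, h.et, h.pol0, h.det, h.dv, h.ne⟩

theorem on_iff (h : M.OK f) {b : M.ι} {P : Loc (KK N)} (hP : LocOf (M.S.A b) P) (j : M.J) :
    M.On P j ↔ P.ev (M.η b j) = 0 := N3Zt.on_iff (ok0 h) hP j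

end M3L

end Pool.Agent.MP_ee8c61_ag.N3
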