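import Pool.Agent.MP_ee8c61_ag.M3L.Zm
import Pool.Agent.MP_ee8c61_ag.M3.Defs
import Pool.Agent.MP_ee8c61_ag.H95.All
import Pool.Agent.MP_96693b_ag.DR.RAff

/-! The strata of a family of models that covers the blow-up of an ideal. -/

set_option autoImplicit false

namespace Pool.Agent.MP_ee8c61_ag.N3Zt

open M3 M3L MvPolynomial H95 Set
open Pool.Agent.MP_96693b_ag.RS (Loc LocOf exists_locOf)
open Pool.Agent.MP_4f1c5b_al.H95 (ConE)

noncomputable section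

variable {N : ℕ} {M : Mod N}

/-- The local properties of a model. -/
structure OK0 (M : Mod N) : Prop where
  r : M.S.r = fun l => ip N (MvPolynomial.X l)
  et : ∀ b, (M.S.zh b).toRingHom.Etale
  pol : ∀ b p, ip N p ∈ M.S.A b
  det : ∀ b, ∃ U : (KK N)ˣ, M.S.IsU b U ∧
    (Matrix.of fun l i => M.S.D b i (M.S.r l)).det = U * M.mon b M.kk
  dv : ∀ b j, (M.η b j)⁻¹ ∉ M.S.A b → M.In b (M.v j).O ∧ (M.v j).v (M.η b j) = 1 ∧
    ∀ g ∈ M.S.A b, g ∈ (M.v j).F 1 → g * (M.η b j)⁻¹ ∈ M.S.A b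
  ne : ∀ j, ∃ b, (M.η b j)⁻¹ ∉ M.S.A b

theorem eta_mem (b : M.ι) (j : M.J) : M.η b j ∈ M.S.A b := by
  cases e : M.S.lab b j with
  | none => simp [Mod.η, M.S.η_none b j e]
  | some l => exact (M.S.η_some b j l e).symm.subst (motive := (· ∈ M.S.A b)) (M.S.z_mem b l)

/-- The equation of a divisor as an element of the chart. -/
def et (b : M.ι) (j : M.J) : M.S.A b := ⟨M.η b j, eta_mem b j⟩

theorem mon_nat (b : M.ι) (c : M.J → ℕ) :
    M.mon b (fun j => c j) = ((∏ j, et b j ^ c j : M.S.A b) : KK N) := by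
  simp [Mod.mon_eq, et]

theorem on_iff (h : OK0 M) {b : M.ι} {P : Loc (KK N)} (hP : LocOf (M.S.A b) P) (j : M.J) :
    M.On P j ↔ P.ev (M.η b j) = 0 := by
  constructor
  · intro H
    obtain ⟨a, ha⟩ := h.ne j
    obtain ⟨h1, h2, -⟩ := h.dv a j ha
    by_contra hn
    have h3 : (M.S.η a j / M.S.η b j : (KK N)ˣ).1 ∈ (M.v j).O :=
      sup_mem h1 (fun g hg => H g (hP.le hg)) (M.S.η_mem a b j)
    have h4 : (M.S.η b j / M.S.η a j : (KK N)ˣ).1 ∈ (M.v j).O :=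
      sup_mem (fun g hg => H g (hP.le hg)) h1 (M.S.η_mem b a j)
    have h5 := (H _ (P.inv_mem _ (hP.le (eta_mem b j)) hn)).resolve_left
      (inv_ne_zero (M.η_ne b j))
    have h6 := h4.resolve_left (Units.ne_zero _)
    rw [Units.val_div_eq_div_val, (M.v j).div (M.η_ne b j) (M.η_ne a j), h2] at h6
    rw [(M.v j).inv] at h5
    omega
  · intro H g hg
    obtain ⟨h1, -, h3⟩ := h.dv b j fun hn => by
      have := P.ev_mul _ (hP.le (eta_mem b j)) _ (hP.le hn)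
      rw [mul_inv_cancel₀ (M.η_ne b j), Loc.ev_one, H, zero_mul] at this
      exact one_ne_zero this
    obtain ⟨p, hp, q, hq, h0, e⟩ := hP.frac g hg
    have hq0 := Loc.ne_zero_of_ev h0
    have h4 : q ∉ (M.v j).F 1 := fun hn => h0 (by
      have := P.ev_mul _ (hP.le (h3 q hq hn)) _ (hP.le (eta_mem b j))
      rwa [inv_mul_cancel_right₀ (M.η_ne b j), H, mul_zero] at this)
    have h5 : q⁻¹ ∈ (M.v j).O := Or.inr (by
      have := not_or.1 h4
      rw [(M.v j).inv]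
      omega)
    rw [(eq_mul_inv_iff_mul_eq₀ hq0).2 e]
    exact (M.v j).O.mul_mem _ _ (h1 p hp) h5

theorem locOf_of_le {a b : M.ι} {P : Loc (KK N)} (hP : LocOf (M.S.A b) P) (h : M.S.A a ≤ P.O) :
    LocOf (M.S.A a) P := by
  refine ⟨h, fun g hg => ?_⟩
  obtain ⟨p, hp, q, hq, h0, e⟩ := hP.frac g hg
  obtain ⟨u, u1, u2, u3⟩ := M.S.loc a b p hp
  obtain ⟨v, v1, v2, v3⟩ := M.S.loc a b q hq
  have k : ∀ w : (KK N)ˣ, (w : KK N) ∈ M.S.A a → (w⁻¹ : (KK N)ˣ).1 ∈ M.S.A a ⊔ M.S.A b →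
      P.ev w ≠ 0 := fun w w1 w2 => by
    have := P.ev_mul _ (h w1) _ (sup_le h hP.le w2)
    rw [Units.mul_inv, Loc.ev_one] at this
    exact left_ne_zero_of_mul_eq_one this.symm
  refine ⟨_, mul_mem u3 v1, _, mul_mem u1 v3, ?_, by rw [← e]; ring⟩
  rw [P.ev_mul _ (h u1) _ (h v3), P.ev_mul _ (h v1) _ (hP.le hq)]
  exact mul_ne_zero (k u u1 u2) (mul_ne_zero (k v v1 v2) h0)

/-- Generators of a chart. -/
structure Gn (M : Mod N) (b : M.ι) where
  n : ℕ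
  y : Fin n → M.S.A b
  zc : Fin N → Fin n
  fc : Fin N → Fin n
  gen : Function.Surjective (ev y)
  hz : ∀ l, (y (zc l) : KK N) = M.S.z b l
  hf : ∀ l, (y (fc l) : KK N) = ip N (X l)

theorem exists_gn (h : OK0 M) (b : M.ι) : Nonempty (Gn M b) := by
  have : Algebra.FiniteType ℂ (M.S.A b) := by
    let _ := (M.S.zh b).toRingHom.toAlgebra
    have : Algebra.Etale (Po N) (M.S.A b) := h.et b
    have : IsScalarTower ℂ (Po N) (M.S.A b) :=
      IsScalarTower.of_algebraMap_eq fun c => ((M.S.zh b).commutes c).symm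
    exact Algebra.FiniteType.trans (S := Po N) inferInstance inferInstance
  obtain ⟨n, φ, hφ⟩ := Algebra.FiniteType.iff_quotient_mvPolynomial''.1 this
  refine ⟨⟨n + (N + N), Fin.append (fun i => φ (X i)) (Fin.append
    (fun l => ⟨_, M.S.z_mem b l⟩) fun l => ⟨_, h.pol b (X l)⟩),
    fun l => Fin.natAdd n (Fin.castAdd N l), fun l => Fin.natAdd n (Fin.natAdd N l), fun a => ?_,
    fun l => by simp, fun l => by rw [Fin.append_right, Fin.append_right]⟩⟩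
  obtain ⟨p, rfl⟩ := hφ a
  refine ⟨rename (Fin.castAdd _) p, ?_⟩
  rw [aeval_rename]
  exact DFunLike.congr_fun (algHom_ext (f := aeval _) (g := φ) fun i => by simp) p

namespace Gn

variable {b : M.ι} (G : Gn M b) (h : OK0 M)

/-- The chart. -/
def ch : Chart N where
  A := M.S.A b
  κ := Fin G.n
  y := G.y
  gen := G.gen
  zc := G.zc
  fc := G.fc
  et := by
    have : ev (G.y ∘ G.zc) = M.S.zh b :=
      congrArg aeval (funext fun l => Subtype.ext (G.hz l))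
    rw [this]
    exact (h.et b).toAlgebra.formallyEtale
  D l := Derivation.mk'
    { toFun := fun a => ⟨M.S.D b l a, M.S.D_mem b l a a.2⟩
      map_add' := fun x y => Subtype.ext (map_add (M.S.D b l) x.1 y.1)
      map_smul' := fun c x => Subtype.ext ((M.S.D b l).map_smul c x.1) }
    fun x y => Subtype.ext ((M.S.D b l).leibniz x.1 y.1)
  dual l m := Subtype.ext (by
    change M.S.D b l (G.y (G.zc m)) = _
    rw [G.hz, M.S.D_z]
    split_ifs <;> rfl)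

theorem val_f (p : Po N) : (M.S.A b).val (ev (G.ch h).f p) = ip N p :=
  DFunLike.congr_fun (algHom_ext (f := (M.S.A b).val.comp (ev (G.ch h).f)) (g := ip N)
    fun i => (congrArg Subtype.val (aeval_X (G.ch h).f i)).trans (G.hf i)) p

theorem det_eq : ∃ v : M.S.A b, IsUnit v ∧ (G.ch h).Jm.det = (∏ j, et b j ^ M.k j) * v := by
  obtain ⟨U, hU, e⟩ := h.det b
  refine ⟨⟨U, hU.1⟩, IsUnit.of_mul_eq_one ⟨_, hU.2⟩ (Subtype.ext U.mul_inv), Subtype.ext ?_⟩
  rw [MulMemClass.coe_mul, ← mon_nat, mul_comm]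
  refine .trans ?_ e
  refine ((M.S.A b).val.map_det _).trans (congrArg Matrix.det (Matrix.ext fun i l => ?_))
  change M.S.D b l (G.y (G.fc i)) = M.S.D b l (M.S.r i)
  rw [G.hf, h.r]

/-- The generators as rational functions. -/
def yk : Fin G.n → KK N := fun k => G.y k

theorem adj : Algebra.adjoin ℂ (range G.yk) = M.S.A b := by
  rw [Algebra.adjoin_range_eq_range_aeval]
  have : aeval G.yk = (M.S.A b).val.comp (ev G.y) := algHom_ext fun i => by simp [yk]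
  rw [this, AlgHom.range_comp, (AlgHom.range_eq_top _).2 G.gen, Algebra.map_top,
    Subalgebra.range_val]

theorem mem_af {P : Loc (KK N)} : P ∈ Af G.yk ↔ LocOf (M.S.A b) P := by
  rw [Af, G.adj]
  rfl

theorem reg {W : Set (Loc (KK N))} (hW : W ⊆ Af G.yk) : RegOn G.yk W :=
  fun _ hP k => (G.mem_af.1 (hW hP)).le (G.y k).2

end Gn

/-- Evaluation at a point. -/
def evh {A : Subalgebra ℂ (KK N)} {P : Loc (KK N)} (h : LocOf A P) : A →ₐ[ℂ] ℂ where
  toFun g := P.ev g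
  map_one' := Loc.ev_one
  map_mul' g g' := P.ev_mul _ (h.le g.2) _ (h.le g'.2)
  map_zero' := Loc.ev_zero
  map_add' g g' := P.ev_add _ (h.le g.2) _ (h.le g'.2)
  commutes' r := P.ev_alg r

namespace Gn

variable {b : M.ι} (G : Gn M b) (h : OK0 M)

include h in
theorem mem_vl {W : Set (Loc (KK N))} (hW : W ⊆ Af G.yk) (φ : M.S.A b →ₐ[ℂ] ℂ) :
    φ ∘ G.y ∈ vl G.yk '' W ↔ ∃ P ∈ W, ∀ g : M.S.A b, P.ev g = φ g :=
  ⟨fun ⟨P, h1, h2⟩ => ⟨P, h1, DFunLike.congr_fun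
    ((G.ch h).hom_ext (γ := evh (G.mem_af.1 (hW h1))) (γ' := φ) h2)⟩,
    fun ⟨P, h1, h2⟩ => ⟨P, h1, funext fun _ => h2 _⟩⟩

include h in
theorem inj : InjOn (vl G.yk) (Af G.yk) := fun P hP P' hP' e => by
  have k := DFunLike.congr_fun
    ((G.ch h).hom_ext (γ := evh (G.mem_af.1 hP)) (γ' := evh (G.mem_af.1 hP')) e)
  exact Loc.ext' (le_antisymm
    ((G.mem_af.1 hP).le_of_ev (G.mem_af.1 hP').le fun g hg => (k ⟨g, hg⟩).symm)
    ((G.mem_af.1 hP').le_of_ev (G.mem_af.1 hP).le fun g hg => k ⟨g, hg⟩))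

end Gn

open Classical in
/-- The coordinates that define the divisors in `I`. -/
def lb (b : M.ι) (I : Finset M.J) : Finset (Fin N) :=
  Finset.univ.filter fun l => ∃ j ∈ I, M.S.lab b j = some l

open Classical in
/-- Multiplicities, indexed by the coordinates. -/
def ix (b : M.ι) (c : M.J → ℕ) (l : Fin N) : ℕ := ∑ j with M.S.lab b j = some l, c j

theorem ix_eq {b : M.ι} (c : M.J → ℕ) {j : M.J} {l : Fin N} (e : M.S.lab b j = some l) :
    ix b c l = c j := by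
  rw [ix, Finset.sum_filter, Finset.sum_eq_single j (fun i _ hi =>
    if_neg fun e' => hi (M.S.lab_inj b i j l e' e)) (by simp), if_pos e]

theorem prod_ix {B : Type} [CommMonoid B] (b : M.ι) (I : Finset M.J) (F : Fin N → ℕ → ℕ → B)
    (F' : M.J → B) (c d : M.J → ℕ) (h0 : ∀ j ∈ I, M.S.lab b j = none → F' j = 1)
    (h1 : ∀ j l, M.S.lab b j = some l → F' j = F l (c j) (d j)) :
    ∏ l ∈ lb b I, F l (ix b c l) (ix b d l) = ∏ j ∈ I, F' j := by
  classical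
  rw [← Finset.prod_filter_of_ne (s := I) (f := F') (p := fun j => (M.S.lab b j).isSome)
    fun j hj hn => Option.isSome_iff_ne_none.2 fun e => hn (h0 j hj e)]
  refine (Finset.prod_bij (fun j hj => (M.S.lab b j).get (Finset.mem_filter.1 hj).2)
    (fun j hj => ?_) (fun j hj j' hj' e => ?_) (fun l hl => ?_) fun j hj => ?_).symm
  · exact Finset.mem_filter.2 ⟨Finset.mem_univ _, j, (Finset.mem_filter.1 hj).1,
      (Option.some_get _).symm⟩
  · exact M.S.lab_inj b j j' _ (Option.some_get _).symm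
      ((Option.some_get _).symm.trans (congrArg some e.symm))
  · obtain ⟨j, hj, e⟩ := (Finset.mem_filter.1 hl).2
    exact ⟨j, Finset.mem_filter.2 ⟨hj, by simp [e]⟩, by simp [e]⟩
  · have e := (Option.some_get (Finset.mem_filter.1 hj).2).symm
    rw [ix_eq c e, ix_eq d e, h1 j _ e]

variable {J' : Type} {g : J' → Po N} {m : M.J → ℕ}

/-- The polynomials `g` generate the monomial ideal with exponents `m`. -/
def Mo (M : Mod N) (g : J' → Po N) (m : M.J → ℕ) : Prop :=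
  (∀ j, 0 < m j) ∧ ∀ b, ∃ u : J' → M.S.A b, (∀ j, ip N (g j) = M.mon b (fun i => m i) * u j) ∧
    ∀ φ : M.S.A b →ₐ[ℂ] ℂ, ∃ j, φ (u j) ≠ 0

/-- Generators and cofactors. -/
structure Cf (h : OK0 M) (g : J' → Po N) (m : M.J → ℕ) (b : M.ι) extends Gn M b where
  u : J' → M.S.A b
  fac : ∀ j, ev (toGn.ch h).f (g j) = (∏ i, et b i ^ m i) * u j
  unit : ∀ φ : M.S.A b →ₐ[ℂ] ℂ, ∃ j, φ (u j) ≠ 0
  v : M.S.A b
  jac : (toGn.ch h).Jm.det = (∏ i, et b i ^ M.k i) * v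
  unitv : IsUnit v

theorem exists_cf (h : OK0 M) (hm : Mo M g m) (b : M.ι) : Nonempty (Cf h g m b) := by
  obtain ⟨G⟩ := exists_gn h b
  obtain ⟨u, h1, h2⟩ := hm.2 b
  obtain ⟨v, h3, h4⟩ := G.det_eq h
  exact ⟨⟨G, u, fun j => Subtype.ext ((G.val_f h _).trans ((h1 j).trans (by rw [mon_nat]; rfl))),
    h2, v, h4, h3⟩⟩

namespace Cf

variable {h : OK0 M} {b : M.ι} (G : Cf h g m b)

theorem et_eq {j : M.J} {l : Fin N} (e : M.S.lab b j = some l) : et b j = G.y (G.zc l) :=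
  Subtype.ext ((M.S.η_some b j l e).trans (G.hz l).symm)

theorem split (I : Finset M.J) (c : M.J → ℕ) (u : M.S.A b) : (∏ i, et b i ^ c i) * u =
    (∏ l ∈ lb b I, G.y (G.zc l) ^ ix b c l) * ((∏ i ∈ Iᶜ, et b i ^ c i) * u) := by
  rw [prod_ix (B := M.S.A b) b I (fun l n _ => G.y (G.zc l) ^ n) (fun j => et b j ^ c j) c c
    (fun j _ e => by
      rw [show et b j = 1 from Subtype.ext (by simp [et, Mod.η, M.S.η_none b j e]), one_pow])
    (fun j l e => by rw [G.et_eq e]), ← mul_assoc, Finset.prod_mul_prod_compl]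

theorem ne_zero {I : Finset M.J} {W : Set (Loc (KK N))} (hW : W ⊆ Af G.yk ∩ M.str I)
    (φ : M.S.A b →ₐ[ℂ] ℂ) (hφ : φ ∘ G.y ∈ vl G.yk '' W) (c : M.J → ℕ) {u : M.S.A b}
    (hu : φ u ≠ 0) : φ ((∏ i ∈ Iᶜ, et b i ^ c i) * u) ≠ 0 := by
  obtain ⟨P, h1, h2⟩ := (G.mem_vl h (hW.trans inter_subset_left) φ).1 hφ
  rw [map_mul, map_prod]
  refine mul_ne_zero (Finset.prod_ne_zero_iff.2 fun i hi => ?_) hu
  rw [map_pow]
  exact pow_ne_zero _ fun e => Finset.mem_compl.1 hi (((hW h1).2.2 i).1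
    ((on_iff h (G.mem_af.1 (hW h1).1) i).2 ((h2 (et b i)).trans e)))

/-- The stratum. -/
def str (hm : ∀ j, 0 < m j) (I : Finset M.J) (W : Set (Loc (KK N))) (hW : W ⊆ Af G.yk ∩ M.str I)
    (hc : H36.Con (vl G.yk '' W)) : Str N g where
  toChart := G.ch h
  P := vl G.yk '' W
  con := conE_iff.2 hc
  pts := fun _ ⟨_, h1, h2⟩ => ⟨evh (G.mem_af.1 (hW h1).1), h2⟩
  S := lb b I
  a := ix b m
  k := ix b M.k
  u := fun j => ((∏ i ∈ Iᶜ, et b i ^ m i) * G.u j : M.S.A b)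
  v := ((∏ i ∈ Iᶜ, et b i ^ M.k i) * G.v : M.S.A b)
  van := fun φ hφ l hl => by
    obtain ⟨P, h1, h2⟩ := (G.mem_vl h (hW.trans inter_subset_left) φ).1 hφ
    obtain ⟨j, hj, e⟩ := (Finset.mem_filter.1 hl).2
    exact (congrArg φ (G.et_eq e)).symm.trans <| (h2 (et b j)).symm.trans
      ((on_iff h (G.mem_af.1 (hW h1).1) j).1 (((hW h1).2.2 j).2 hj))
  fac := fun j => (G.fac j).trans (G.split I m _)
  unit := fun φ hφ => (G.unit φ).imp fun _ hj => G.ne_zero hW φ hφ m hj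
  jac := G.jac.trans (G.split I M.k _)
  unitv := fun φ hφ => G.ne_zero hW φ hφ M.k (G.unitv.map φ).ne_zero
  esc := fun l hl h0 => by
    obtain ⟨j, -, e⟩ := (Finset.mem_filter.1 hl).2
    exact absurd ((ix_eq m e).symm.trans h0) (hm j).ne'

theorem dvd (hm : ∀ j, 0 < m j) (j : J') :
    (G.ch h).Jm.det ∣ ev (G.ch h).f (g j) ^ ∑ i, M.k i := by
  suffices (∏ i, et b i ^ M.k i) * G.v ∣ ((∏ i, et b i ^ m i) * G.u j) ^ ∑ i, M.k i by
    rw [G.jac, G.fac]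
    exact this
  rw [G.unitv.mul_right_dvd, mul_pow, ← Finset.prod_pow]
  refine Dvd.dvd.mul_right (Finset.prod_dvd_prod_of_dvd _ _ fun i _ => ?_) _
  rw [← pow_mul]
  exact pow_dvd_pow _ ((Finset.single_le_sum (fun _ _ => Nat.zero_le _) (Finset.mem_univ i)).trans
    (Nat.le_mul_of_pos_left _ (hm i)))

end Cf

theorem det_ne {s : Str N g} {γ : s.A →ₐ[ℂ] PS} (h : s.Fin' γ) : γ s.Jm.det ≠ 0 := by
  rw [s.jac, map_mul, map_prod]
  refine mul_ne_zero (Finset.prod_ne_zero_iff.2 fun l hl => ?_) fun e => ?_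
  · rw [map_pow]
    exact pow_ne_zero _ (h.2 l hl)
  · exact s.unitv (s.pt γ) h.1 (by rw [Chart.pt_apply, e, map_zero])

theorem le_of_lift {β : Po N →ₐ[ℂ] PS} {b b' : M.ι} {γ : M.S.A b →ₐ[ℂ] PS}
    {γ' : M.S.A b' →ₐ[ℂ] PS} (h : ∀ a : M.S.A b, ((a : KK N), γ a) ∈ gr β)
    (h' : ∀ a : M.S.A b', ((a : KK N), γ' a) ∈ gr β) {P P' : Loc (KK N)} (hP : LocOf (M.S.A b) P)
    (hP' : LocOf (M.S.A b') P') (e : ∀ a : M.S.A b, P.ev a = PowerSeries.constantCoeff (γ a))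
    (e' : ∀ a : M.S.A b', P'.ev a = PowerSeries.constantCoeff (γ' a)) : P'.O ≤ P.O := by
  have k : ∀ x ∈ M.S.A b', x ∈ P.O ∧ P.ev x = P'.ev x := fun x hx => by
    obtain ⟨u, u1, u2, u3⟩ := M.S.loc b b' x hx
    obtain ⟨y, hy⟩ := mem_dm.1 ((sup_le (fun a ha => mem_dm.2 ⟨_, h ⟨a, ha⟩⟩)
      (fun a ha => mem_dm.2 ⟨_, h' ⟨a, ha⟩⟩) : _ ≤ dm β) u2)
    have h1 : γ ⟨u, u1⟩ * y = 1 :=
      gr_fun (by simpa using mul_mem (h ⟨u, u1⟩) hy) (one_mem (gr β))
    have h2 : P.ev u ≠ 0 := by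
      rw [e ⟨u, u1⟩]
      exact left_ne_zero_of_mul_eq_one (by rw [← map_mul, h1, map_one])
    have h3 : x ∈ P.O := by
      simpa using Loc.div_mem (hP.le u3) (hP.le u1) h2
    refine ⟨h3, mul_left_cancel₀ h2 ?_⟩
    rw [← P.ev_mul _ (hP.le u1) _ h3, e ⟨_, u3⟩, e ⟨u, u1⟩, e' ⟨x, hx⟩, ← map_mul,
      gr_fun (h ⟨_, u3⟩) (mul_mem (h ⟨u, u1⟩) (h' ⟨x, hx⟩))]
  exact hP'.le_of_ev (fun x hx => (k x hx).1) fun x hx => (k x hx).2

section Cover

variable {h : OK0 M} (G : ∀ b, Cf h g m b) (o : M.ι → ℕ)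

/-- The pieces of the strata. -/
def piece (p : M.ι × Finset M.J) : Set (Loc (KK N)) :=
  (Af (G p.1).yk ∩ M.str p.2) \ ⋃ a ∈ {a | o a < o p.1}, Af (G a).yk

theorem piece_inj (ho : Function.Injective o) {p p' : M.ι × Finset M.J} {P : Loc (KK N)}
    (h1 : P ∈ piece G o p) (h2 : P ∈ piece G o p') : p = p' :=
  Prod.ext (ho (le_antisymm (not_lt.1 fun e => h1.2 (mem_biUnion e h2.1.1))
    (not_lt.1 fun e => h2.2 (mem_biUnion e h1.1.1))))
    (Finset.ext fun j => (h1.1.2.2 j).symm.trans (h2.1.2.2 j))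

variable (hC : ConOK (KK N))

theorem con_af {κ : Type} [Finite κ] (y : κ → KK N) : ConP (Af y) := by
  simpa using ConP.pc κ y univ H36.Con.univ

theorem con_empty : ConP (∅ : Set (Loc (KK N))) := by
  simpa using ConP.pc (Fin 0) (fun _ => (0 : KK N)) ∅ H36.Con.empty

theorem con_union {α : Type} {s : Set α} (hs : s.Finite) {W : α → Set (Loc (KK N))}
    (hW : ∀ a, ConP (W a)) : ConP (⋃ a ∈ s, W a) := by
  induction s, hs using Finite.induction_on with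
  | empty => simpa using con_empty
  | insert _ _ ih =>
    rw [biUnion_insert]
    exact (hW _).union ih

include hC in
theorem con_piece (p : M.ι × Finset M.J) : ConP (piece G o p) := by
  refine hC.diff _ _ ?_ (con_union (toFinite _) fun a => con_af _)
  have := ConP.pc _ (G p.1).yk _ (H36.Con.all fun j : M.J => show H36.Con
    {x | (∃ l, M.S.lab p.1 j = some l ∧ x ((G p.1).zc l) = 0) ↔ j ∈ p.2} from by
      have : H36.Con {x : _ → ℂ | ∃ l, M.S.lab p.1 j = some l ∧ x ((G p.1).zc l) = 0} := by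
        cases M.S.lab p.1 j with
        | none => exact H36.Con.empty.of_iff (by simp)
        | some l => exact (H36.Con.coord ((G p.1).zc l)).of_iff (by simp)
      by_cases hj : j ∈ p.2
      · exact this.of_iff (by simp [hj])
      · exact this.compl.of_iff (by simp [hj]))
  refine Eq.subst (motive := ConP) (Set.ext fun P => and_congr_right fun hP => ?_) this
  have h1 := (G p.1).mem_af.1 hP
  refine Iff.trans ?_ (and_iff_right (show P ∈ M.pts from ⟨_, h1⟩)).symm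
  refine forall_congr' fun j => iff_congr ?_ Iff.rfl
  rw [on_iff h h1]
  cases e : M.S.lab p.1 j with
  | none => simp [Mod.η, M.S.η_none _ j e, Loc.ev_one]
  | some l => simp [Mod.η, M.S.η_some _ j l e, vl, Gn.yk, (G p.1).hz]

theorem chi_union {χ : H36.Chi} (hχ : ChiOK χ (KK N)) {α : Type} (s : Finset α)
    {W : α → Set (Loc (KK N))} (hW : ∀ a, ConP (W a)) (hd : Pairwise (Function.onFun Disjoint W)) :
    chiP χ (⋃ a ∈ s, W a) = ∑ a ∈ s, chiP χ (W a) := by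
  classical
  induction s using Finset.induction_on with
  | empty => simpa using hχ.add _ _ con_empty con_empty (disjoint_empty _)
  | insert a s ha ih =>
    rw [Finset.set_biUnion_insert, Finset.sum_insert ha, ← ih]
    exact hχ.add _ _ (hW a) (con_union s.finite_toSet hW)
      (disjoint_iUnion₂_right.2 fun b hb => hd fun e => ha (e ▸ hb))

theorem str_eq (I : Finset M.J) :
    M.str I = ⋃ b ∈ (Finset.univ : Finset M.ι), piece G o (b, I) := by
  ext P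
  simp only [mem_iUnion, Finset.mem_univ, exists_const]
  refine ⟨fun hP => ?_, fun ⟨b, hb⟩ => hb.1.2⟩
  obtain ⟨b, hb, hmin⟩ := exists_min_image {b | P ∈ Af (G b).yk} o (toFinite _)
    (hP.1.imp fun b hb => (G b).mem_af.2 hb)
  refine ⟨b, ⟨hb, hP⟩, fun hn => ?_⟩
  obtain ⟨a, ha, h3⟩ := mem_iUnion₂.1 hn
  exact (hmin a h3).not_gt ha

end Cover

theorem con_zero (hC : ConOK (KK N)) {W : Set (Loc (KK N))} (hW : ConP W) {κ : Type} [Finite κ]
    (y : κ → KK N) (hy : RegOn y W) : ConP (W ∩ {P | ∀ k, P.ev (y k) = 0}) :=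
  hC.pre W κ y _ hW hy (H36.Con.all fun k => H36.Con.coord k)

theorem con_str (hC : ConOK (KK N)) (h : OK0 M) (hm : Mo M g m) (I : Finset M.J) :
    ConP (M.str I) := by
  have G := fun b => (exists_cf h hm b).some
  rw [str_eq G (fun b => Fintype.equivFin _ b) I]
  exact con_union (Finset.finite_toSet _) fun b => con_piece G _ hC _

/-- The zeta function of a part of a model. -/
def zr (M : Mod N) (χ : H36.Chi) (Z : Set (Loc (KK N))) : RatFunc ℂ :=
  ∑ I : Finset M.J, (chiP χ (M.str I ∩ Z) : RatFunc ℂ) *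
    ∏ i ∈ I, 1 / ((M.a i : RatFunc ℂ) * RatFunc.X + (M.k i : RatFunc ℂ) + 1)

/-- The model `W i` lies over the chart `e i` of the blow-up of the ideal. -/
structure Fam (g : J' → Po N) {κ : Type} (e : κ → J') (W : κ → Mod N) : Prop where
  ok : ∀ i, OK0 (W i)
  pos : ∀ i j, 0 < (W i).a j
  ord : ∀ i b, ∃ U : (KK N)ˣ, (W i).S.IsU b U ∧ ip N (g (e i)) = U * (W i).mon b (W i).aa
  mem : ∀ i b j, ip N (g j) / ip N (g (e i)) ∈ (W i).S.A b
  cov : ∀ i (V : Vl N), Ov V → (∀ j, ip N (g j) / ip N (g (e i)) ∈ V) → ∃ b, (W i).In b V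
  onto : ∀ j, g j ≠ 0 → ∃ i, e i = j
  ne : ∀ i, g (e i) ≠ 0

section Fam

variable {κ : Type} {e : κ → J'} {W : κ → Mod N}

theorem Fam.ne' (F : Fam g e W) (i : κ) : ip N (g (e i)) ≠ 0 := M3B1.ip_ne (F.ne i)

theorem Fam.mo (F : Fam g e W) (i : κ) : Mo (W i) g (W i).a := ⟨F.pos i, fun b => by
  obtain ⟨U, hU, h⟩ := F.ord i b
  refine ⟨fun j => ⟨U, hU.1⟩ * ⟨_, F.mem i b j⟩, fun j => ?_, fun φ => ⟨e i, ?_⟩⟩
  · change _ = (W i).mon b (W i).aa * (U * (ip N (g j) / ip N (g (e i))))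
    rw [← mul_assoc, mul_comm _ (U : KK N), ← h, mul_div_cancel₀ _ (F.ne' i)]
  · have : (⟨_, F.mem i b (e i)⟩ : (W i).S.A b) = 1 := Subtype.ext (div_self (F.ne' i))
    beta_reduce
    rw [this, mul_one]
    exact ((IsUnit.of_mul_eq_one (⟨_, hU.2⟩ : (W i).S.A b) (Subtype.ext U.mul_inv)).map φ).ne_zero⟩

/-- The points where the earlier generators do not generate. -/
def Zs (g : J' → Po N) (e : κ → J') (c : κ → ℕ) (i : κ) : Set (Loc (KK N)) :=
  {P | ∀ k : {k // c k < c i}, P.ev (ip N (g (e k.1)) / ip N (g (e i))) = 0}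

variable (F : Fam g e W) (G : ∀ i b, Cf (F.ok i) g (W i).a b) (o : ∀ i, (W i).ι → ℕ) (c : κ → ℕ)

/-- The pieces. -/
def pc (p : Σ i, (W i).ι × Finset (W i).J) : Set (Loc (KK N)) :=
  piece (G p.1) (o p.1) p.2 ∩ Zs g e c p.1

theorem pc_sub (p : Σ i, (W i).ι × Finset (W i).J) :
    pc F G o c p ⊆ Af (G p.1 p.2.1).yk ∩ (W p.1).str p.2.2 := inter_subset_left.trans sdiff_subset

variable (hc : ∀ p, H36.Con (vl (G p.1 p.2.1).yk '' pc F G o c p))

/-- The strata. -/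
def strs (p : Σ i, (W i).ι × Finset (W i).J) : Str N g :=
  (G p.1 p.2.1).str (F.pos p.1) p.2.2 (pc F G o c p) (pc_sub F G o c p) (hc p)

theorem lift_of (p : Σ i, (W i).ι × Finset (W i).J) (γ : (strs F G o c hc p).A →ₐ[ℂ] PS)
    (h1 : (strs F G o c hc p).Fin' γ) (a : (W p.1).S.A p.2.1) :
    ((a : KK N), γ a) ∈ gr (ev (γ ∘ (strs F G o c hc p).f)) :=
  lifts ((G p.1 p.2.1).ch (F.ok p.1)) ((W p.1).S.A p.2.1).val Subtype.val_injective
    ((G p.1 p.2.1).val_f (F.ok p.1)) γ (det_ne h1) a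

theorem pt_of (p : Σ i, (W i).ι × Finset (W i).J) (γ : (strs F G o c hc p).A →ₐ[ℂ] PS)
    (h1 : (strs F G o c hc p).Fin' γ) : ∃ P ∈ pc F G o c p, ∀ a : (W p.1).S.A p.2.1,
      P.ev a = PowerSeries.constantCoeff (γ a) :=
  ((G p.1 p.2.1).mem_vl (F.ok p.1) ((pc_sub F G o c p).trans inter_subset_left)
    (((G p.1 p.2.1).ch (F.ok p.1)).pt γ)).1 h1.1

theorem not_lt_of (p p' : Σ i, (W i).ι × Finset (W i).J) (γ : (strs F G o c hc p).A →ₐ[ℂ] PS)
    (γ' : (strs F G o c hc p').A →ₐ[ℂ] PS) (h1 : (strs F G o c hc p).Fin' γ)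
    (h2 : (strs F G o c hc p').Fin' γ')
    (h : γ ∘ (strs F G o c hc p).f = γ' ∘ (strs F G o c hc p').f) : ¬c p.1 < c p'.1 := fun hl => by
  obtain ⟨P', h5, h6⟩ := pt_of F G o c hc p' γ' h2
  have a := lift_of F G o c hc p γ h1 ⟨_, F.mem p.1 p.2.1 (e p'.1)⟩
  have a' := lift_of F G o c hc p' γ' h2 ⟨_, F.mem p'.1 p'.2.1 (e p.1)⟩
  rw [← h] at a'
  have a2 := mul_mem a a'
  rw [Prod.mk_mul_mk, div_mul_div_cancel₀ (F.ne' p.1), div_self (F.ne' p'.1)] at a2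
  have a3 := congrArg PowerSeries.constantCoeff (gr_fun a2 (one_mem (gr _)))
  rw [map_mul, ← h6, h5.2 ⟨p.1, hl⟩, mul_zero, map_one] at a3
  exact zero_ne_one a3

variable [Fintype κ] [Finite J']

/-- The family of strata. -/
def dat (ho : ∀ i, Function.Injective (o i)) (hi : Function.Injective c) : Dat N g where
  R := Σ i, (W i).ι × Finset (W i).J
  s := strs F G o c hc
  ex := fun w _ ⟨j, hj⟩ => by
    classical
    obtain ⟨V, h1, h2⟩ := exists_val (ev w)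
    have hO : Ov V := fun p => h1 _ (mem_dm.2 ⟨_, gr_ip p⟩)
    have key : ∀ i, (∀ j, ip N (g j) / ip N (g (e i)) ∈ V) → ∃ b, (W i).S.A b ≤ dm (ev w) :=
      fun i hi => by
        obtain ⟨b₀, hb₀⟩ := F.cov i V hO hi
        exact ⟨b₀, fun a ha => le_dm ((G i b₀).ch (F.ok i)) ((W i).S.A b₀).val
          Subtype.val_injective ((G i b₀).val_f (F.ok i)) h2 h1 (fun a => hb₀ _ a.2) hj
          ((G i b₀).dvd (F.pos i) j) ⟨a, ha⟩⟩
    have : Nonempty J' := ⟨j⟩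
    obtain ⟨j₁, hj₁⟩ := Finite.exists_max fun j => V.valuation (ip N (g j))
    have n1 : g j₁ ≠ 0 := fun h0 => hj (by
      have := hj₁ j
      rw [h0, map_zero, map_zero, le_zero_iff, Valuation.zero_iff] at this
      rw [ip_inj (this.trans (map_zero _).symm), map_zero])
    obtain ⟨i₁, rfl⟩ := F.onto j₁ n1
    obtain ⟨i, hi0, himin⟩ := exists_min_image {i | ∃ b, (W i).S.A b ≤ dm (ev w)} c (toFinite _)
      ⟨i₁, key i₁ fun j => by
        rw [← V.valuation_le_one_iff, map_div₀]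
        exact div_le_one_of_le₀ (hj₁ j) zero_le⟩
    obtain ⟨b, hb, hmin⟩ := exists_min_image {b | (W i).S.A b ≤ dm (ev w)} (o i) (toFinite _) hi0
    obtain ⟨γ, hγ⟩ := exists_lift hb
    obtain ⟨P, hP, e1⟩ := exists_locOf
      (Subalgebra.fg_def.2 ⟨_, finite_range _, (G i b).adj⟩) (((G i b).ch (F.ok i)).pt γ)
    have iv : ∀ q ∈ (W i).S.A b, P.ev q ≠ 0 → q⁻¹ ∈ dm (ev w) := fun q hq h0 =>
      mem_dm.2 ⟨_, gr_inv (hγ ⟨q, hq⟩) (PowerSeries.mul_inv_cancel _ (e1 ⟨q, hq⟩ ▸ h0))⟩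
    refine ⟨⟨i, b, Finset.univ.filter ((W i).On P)⟩, γ, ((G i b).mem_vl (F.ok i)
      ((pc_sub F G o c ⟨i, b, _⟩).trans inter_subset_left) (((G i b).ch (F.ok i)).pt γ)).2
      ⟨P, ⟨⟨⟨(G i b).mem_af.2 hP, ⟨b, hP⟩, fun i => by simp⟩, fun hn => ?_⟩, fun k => ?_⟩, e1⟩,
      funext fun l => ?_⟩
    · obtain ⟨a, ha, h3⟩ := mem_iUnion₂.1 hn
      refine (hmin a fun x hx => ?_).not_gt ha
      obtain ⟨p, hp, q, hq, h0, e'⟩ := hP.frac x (((G i a).mem_af.1 h3).le hx)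
      rw [(eq_mul_inv_iff_mul_eq₀ (Loc.ne_zero_of_ev h0)).2 e']
      exact mul_mem (hb hp) (iv q hq h0)
    · by_contra h0
      refine (himin k.1 (key k.1 fun j => h1 _ ?_)).not_gt k.2
      have := mul_mem (hb (F.mem i b j)) (iv _ (F.mem i b (e k.1)) h0)
      rwa [inv_div, div_mul_div_cancel₀ (F.ne' i)] at this
    · exact gr_fun (hγ ((G i b).y ((G i b).fc l)))
        (by simpa [← (G i b).hf] using gr_ip (β := ev w) (X l))
  ua := fun p γ γ' h1 h2 e => AlgHom.ext fun a =>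
    gr_fun (lift_of F G o c hc p γ h1 a) (e ▸ lift_of F G o c hc p γ' h2 a)
  ur := fun p p' γ γ' h1 h2 h => by
    have h0 : p.1 = p'.1 := hi (le_antisymm (not_lt.1 (not_lt_of F G o c hc p' p γ' γ h2 h1 h.symm))
      (not_lt.1 (not_lt_of F G o c hc p p' γ γ' h1 h2 h)))
    obtain ⟨i, p⟩ := p
    obtain ⟨i', p'⟩ := p'
    obtain rfl : i = i' := h0
    obtain ⟨P, h3, h4⟩ := pt_of F G o c hc _ γ h1
    obtain ⟨P', h5, h6⟩ := pt_of F G o c hc _ γ' h2
    have a := lift_of F G o c hc _ γ h1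
    have a' := lift_of F G o c hc _ γ' h2
    rw [← h] at a'
    have d := (G i p.1).mem_af.1 h3.1.1.1
    have d' := (G i p'.1).mem_af.1 h5.1.1.1
    obtain rfl : P = P' :=
      Loc.ext' (le_antisymm (le_of_lift a' a d' d h6 h4) (le_of_lift a a' d d' h4 h6))
    exact congrArg (Sigma.mk i) (piece_inj (G i) (o i) (ho i) h3.1 h5.1)

include F in
theorem exists_dat (hC : ConOK (KK N)) (hi : Function.Injective c) : ∃ D : Dat N g,
    ∀ χ, H36.IsEuler χ → ChiOK χ (KK N) → D.ztop χ = ∑ i, zr (W i) χ (Zs g e c i) := by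
  have G := fun i b => (exists_cf (F.ok i) (F.mo i) b).some
  let o : ∀ i, (W i).ι → ℕ := fun i b => Fintype.equivFin _ b
  have ho : ∀ i, Function.Injective (o i) := fun i => Fin.val_injective.comp (Equiv.injective _)
  have hs : ∀ p, pc F G o c p ⊆ Af (G p.1 p.2.1).yk := fun p =>
    (pc_sub F G o c p).trans inter_subset_left
  have hW : ∀ p, ConP (pc F G o c p) := fun p => con_zero hC (con_piece (G p.1) (o p.1) hC p.2) _
    fun P hP k => ((G p.1 p.2.1).mem_af.1 hP.1.1).le (F.mem _ _ _)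
  refine ⟨dat F G o c (fun p => hC.img _ _ _ (hW p) ((G p.1 p.2.1).reg (hs p))) ho hi,
    fun χ h0 hχ => ?_⟩
  change ∑ p : Σ i, (W i).ι × Finset (W i).J,
    (χ (Fin (G p.1 p.2.1).n) (vl (G p.1 p.2.1).yk '' pc F G o c p) : RatFunc ℂ) *
    ∏ l ∈ lb p.2.1 p.2.2, 1 / ((ix p.2.1 (W p.1).a l : RatFunc ℂ) * RatFunc.X +
      ((ix p.2.1 (W p.1).k l + 1 : ℕ) : RatFunc ℂ)) = _
  rw [Fintype.sum_sigma]
  refine Finset.sum_congr rfl fun i _ => ?_
  rw [zr, Fintype.sum_prod_type_right]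
  refine Finset.sum_congr rfl fun I _ => ?_
  have e0 : (W i).str I ∩ Zs g e c i = ⋃ b ∈ (Finset.univ : Finset (W i).ι), pc F G o c ⟨i, b, I⟩ := by
    rw [str_eq (G i) (o i) I, iUnion₂_inter]
    rfl
  rw [e0, chi_union hχ _ (W := fun b => pc F G o c ⟨i, b, I⟩) (fun b => hW ⟨i, b, I⟩) fun a b e =>
      disjoint_left.2 fun P h1 h2 =>
        e (congrArg Prod.fst (piece_inj (G i) (o i) (ho i) h1.1 h2.1)),
    Int.cast_sum, Finset.sum_mul]
  refine Finset.sum_congr rfl fun b _ => ?_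
  dsimp only
  rw [hχ.crd _ _ _ (hW ⟨i, b, I⟩) ((G i b).reg (hs ⟨i, b, I⟩))
    (((G i b).inj (F.ok i)).mono (hs ⟨i, b, I⟩))]
  rcases (pc F G o c ⟨i, b, I⟩).eq_empty_or_nonempty with e | ⟨P, hP⟩
  · simp [e, h0.empty]
  · rw [prod_ix b I (fun _ n c => 1 / ((n : RatFunc ℂ) * RatFunc.X + ((c + 1 : ℕ) : RatFunc ℂ)))
      (fun j => 1 / (((W i).a j : RatFunc ℂ) * RatFunc.X + ((W i).k j : RatFunc ℂ) + 1))
      (W i).a (W i).k
      (fun j hj e => absurd ((on_iff (F.ok i) ((G i b).mem_af.1 hP.1.1.1) j).1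
        ((hP.1.1.2.2 j).2 hj)) (by simp [Mod.η, (W i).S.η_none _ j e, Loc.ev_one]))
      fun j l _ => by rw [Nat.cast_add, Nat.cast_one, add_assoc]]

end Fam

open AlgebraicGeometry in
/-- The zeta function of an ideal can be computed on a family of models. -/
theorem sdat (hC : SCON) (hX : SCHI) {r : ℕ} (g : Fin r → Po N) (Y : Scheme.{0})
    (π : Y ⟶ H95.Aff N) (J : Type) [Fintype J] (E : J → Set Y) (a k : J → ℕ) (χ : Set Y → ℤ)
    (hY : H95.IsLogRes (Ideal.span (range g)) π E a k) (hχ : H95.IsChi π χ) :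
    ∃ χ₀, IsEu χ₀ ∧ ∀ (κ : Type) [Fintype κ] (e : κ → Fin r) (W : κ → Mod N) (c : κ → ℕ),
      Fam g e W → Function.Injective c → H95.zeta E a k χ = ∑ i, zr (W i) χ₀ (Zs g e c i) := by
  obtain ⟨D, χ₀, h1, h2⟩ := res_all N _ _ Y π J E a k χ hY hχ
  obtain ⟨ψ, h3, h4, h5⟩ := eul mm_all χ₀ h1
  refine ⟨ψ, ⟨h3, (h4 0 _ (conE_iff.2 H36.Con.univ)).trans h1.pt⟩, fun κ _ e W c F hc => ?_⟩
  obtain ⟨D', hD⟩ := exists_dat F c (hC _) hc
  obtain ⟨A, hA, hA'⟩ := jet_all.defd _ _ _ D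
  obtain ⟨B, hB, hB'⟩ := jet_all.defd _ _ _ D'
  obtain ⟨L, hL⟩ := mm_all _ (hA.union hB).countable
  rw [← h2 ψ h4]
  exact (lim L _ _ _ (lim_mes dl_all h5 L D (hA' _ (subset_union_left.trans hL)))
    (lim_mes dl_all h5 L D' (hB' _ (subset_union_right.trans hL)))).trans (hD ψ h3 (hX ψ _ h3))

end

end Pool.Agent.MP_ee8c61_ag.N3Zt
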